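import Mathlib

/-!
# Signed graphs: pairs, witnesses, P4's (helper30)

Purely combinatorial part of the GS theorem.  `s v = true` means sign `+`.
-/

set_option autoImplicit false

namespace SGN

variable {V : Type*}

/-- the vertices of `W` that do not distinguish `a` and `b` treat `m` like `a`. -/
def Btw (G : SimpleGraph V) (W : Set V) (a b m : V) : Prop :=
  ∀ v ∈ W, v ≠ a → v ≠ b → v ≠ m → (G.Adj v a ↔ G.Adj v b) → (G.Adj v m ↔ G.Adj v a)

/-- `a b` (an edge with two signs `+`) has a witness in `W`. -/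
def WitE (G : SimpleGraph V) (s : V → Bool) (W : Set V) (a b : V) : Prop :=
  ∃ m ∈ W, s m = false ∧ G.Adj m a ∧ G.Adj m b ∧ Btw G W a b m

/-- every edge of `W` with two signs `+` has a witness in `W`. -/
def EW (G : SimpleGraph V) (s : V → Bool) (W : Set V) : Prop :=
  ∀ a ∈ W, ∀ b ∈ W, G.Adj a b → s a = true → s b = true → WitE G s W a b

/-- the same with the exemption every vertex of `W` sees `a` or `b`. -/
def EU (G : SimpleGraph V) (s : V → Bool) (W : Set V) : Prop :=
  ∀ a ∈ W, ∀ b ∈ W, G.Adj a b → s a = true → s b = true →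
    WitE G s W a b ∨ ∀ v ∈ W, v ≠ a → v ≠ b → G.Adj v a ∨ G.Adj v b

/-- reversed signs -/
def ns (s : V → Bool) : V → Bool := fun v => !(s v)

@[simp] theorem ns_ns (s : V → Bool) : ns (ns s) = s := by
  funext v; simp [ns]

@[simp] theorem ns_true (s : V → Bool) (v : V) : ns s v = true ↔ s v = false := by
  simp [ns]

@[simp] theorem ns_false (s : V → Bool) (v : V) : ns s v = false ↔ s v = true := by
  simp [ns]

/-- every usable pair of `W` has a witness in `W`. -/
def PW (G : SimpleGraph V) (s : V → Bool) (W : Set V) : Prop :=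
  EW G s W ∧ EW Gᶜ (ns s) W

/-- every usable pair of `W` has a witness in `W` plus an isolated `+`. -/
def PR (G : SimpleGraph V) (s : V → Bool) (W : Set V) : Prop :=
  EW G s W ∧ EU Gᶜ (ns s) W

theorem PW.compl {G : SimpleGraph V} {s : V → Bool} {W : Set V} (h : PW G s W) :
    PW Gᶜ (ns s) W := by
  refine ⟨h.2, ?_⟩
  simpa using h.1

/-- induced path on four vertices -/
def IsP4 (G : SimpleGraph V) (a b c d : V) : Prop :=
  G.Adj a b ∧ G.Adj b c ∧ G.Adj c d ∧ ¬ G.Adj a c ∧ ¬ G.Adj a d ∧ ¬ G.Adj b d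

def HasP4 (G : SimpleGraph V) (W : Set V) : Prop :=
  ∃ a ∈ W, ∃ b ∈ W, ∃ c ∈ W, ∃ d ∈ W, IsP4 G a b c d

theorem IsP4.ne_ac {G : SimpleGraph V} {a b c d : V} (h : IsP4 G a b c d) : a ≠ c := by
  rintro rfl
  exact h.2.2.2.2.1 h.2.2.1

theorem IsP4.ne_ad {G : SimpleGraph V} {a b c d : V} (h : IsP4 G a b c d) : a ≠ d := by
  rintro rfl
  exact h.2.2.2.1 h.2.2.1.symm

theorem IsP4.ne_bd {G : SimpleGraph V} {a b c d : V} (h : IsP4 G a b c d) : b ≠ d := by
  rintro rfl
  exact h.2.2.2.2.1 h.1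

theorem IsP4.ne_ab {G : SimpleGraph V} {a b c d : V} (h : IsP4 G a b c d) : a ≠ b := h.1.ne
theorem IsP4.ne_bc {G : SimpleGraph V} {a b c d : V} (h : IsP4 G a b c d) : b ≠ c := h.2.1.ne
theorem IsP4.ne_cd {G : SimpleGraph V} {a b c d : V} (h : IsP4 G a b c d) : c ≠ d := h.2.2.1.ne

theorem IsP4.rev {G : SimpleGraph V} {a b c d : V} (h : IsP4 G a b c d) : IsP4 G d c b a :=
  ⟨h.2.2.1.symm, h.2.1.symm, h.1.symm, fun e => h.2.2.2.2.2 e.symm,
    fun e => h.2.2.2.2.1 e.symm, fun e => h.2.2.2.1 e.symm⟩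

theorem IsP4.compl {G : SimpleGraph V} {a b c d : V} (h : IsP4 G a b c d) :
    IsP4 Gᶜ b d a c := by
  have h1 := h.ne_ac
  have h2 := h.ne_ad
  have h3 := h.ne_bd
  obtain ⟨ab, bc, cd, ac, ad, bd⟩ := h
  refine ⟨?_, ?_, ?_, ?_, ?_, ?_⟩ <;> simp only [SimpleGraph.compl_adj]
  · exact ⟨h3, bd⟩
  · exact ⟨h2.symm, fun e => ad e.symm⟩
  · exact ⟨h1, ac⟩
  · exact fun e => e.2 ab.symm
  · exact fun e => e.2 bc
  · exact fun e => e.2 cd.symm

theorem HasP4.compl {G : SimpleGraph V} {W : Set V} (h : HasP4 G W) : HasP4 Gᶜ W := by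
  obtain ⟨a, ha, b, hb, c, hc, d, hd, h⟩ := h
  exact ⟨b, hb, d, hd, a, ha, c, hc, h.compl⟩

theorem hasP4_compl {G : SimpleGraph V} {W : Set V} : HasP4 Gᶜ W ↔ HasP4 G W := by
  constructor
  · intro h
    simpa using h.compl
  · exact HasP4.compl

theorem HasP4.mono {G : SimpleGraph V} {W W' : Set V} (hW : W ⊆ W') (h : HasP4 G W) :
    HasP4 G W' := by
  obtain ⟨a, ha, b, hb, c, hc, d, hd, h⟩ := h
  exact ⟨a, hW ha, b, hW hb, c, hW hc, d, hW hd, h⟩

theorem btw_compl {G : SimpleGraph V} {W : Set V} {a b m : V} :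
    Btw Gᶜ W a b m ↔ Btw G W a b m := by
  unfold Btw
  refine forall_congr' fun v => forall_congr' fun _ => forall_congr' fun ha =>
    forall_congr' fun hb => forall_congr' fun hm => ?_
  simp only [SimpleGraph.compl_adj, ne_eq, ha, hb, hm, not_false_eq_true, true_and]
  tauto

theorem Btw.mono {G : SimpleGraph V} {W W' : Set V} {a b m : V} (hW : W ⊆ W')
    (h : Btw G W' a b m) : Btw G W a b m := fun v hv => h v (hW hv)

/-- `W` is a disjoint union of two non-empty parts without edges in between. -/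
def Split (G : SimpleGraph V) (W : Set V) : Prop :=
  ∃ A : Set V, A ⊆ W ∧ A.Nonempty ∧ (W \ A).Nonempty ∧ ∀ a ∈ A, ∀ b ∈ W \ A, ¬ G.Adj a b

/-- `C` is a component of `W` containing `x`. -/
def Cmp (G : SimpleGraph V) (W : Set V) (x : V) (C : Set V) : Prop :=
  C ⊆ W ∧ x ∈ C ∧ (∀ a ∈ C, ∀ b ∈ W \ C, ¬ G.Adj a b) ∧ ¬ Split G C

theorem exists_cmp [Finite V] (G : SimpleGraph V) (W : Set V) (x : V) (hx : x ∈ W) :
    ∃ C, Cmp G W x C := by
  have key : ∀ n : ℕ, ∀ A : Set V, A.ncard = n → A ⊆ W → x ∈ A →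
      (∀ a ∈ A, ∀ b ∈ W \ A, ¬ G.Adj a b) → ∃ C, Cmp G W x C := by
    intro n
    induction n using Nat.strong_induction_on with
    | _ n ih =>
      intro A hn hAW hxA hA
      by_cases hS : Split G A
      · obtain ⟨B, hBA, hBn, hBc, hB⟩ := hS
        by_cases hxB : x ∈ B
        · refine ih B.ncard ?_ B rfl (hBA.trans hAW) hxB ?_
          · rw [← hn]
            apply Set.ncard_lt_ncard _ (Set.toFinite _)
            refine ⟨hBA, fun h => ?_⟩
            obtain ⟨y, hy⟩ := hBc
            exact hy.2 (h hy.1)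
          · intro a ha b hb
            by_cases hbA : b ∈ A
            · exact hB a ha b ⟨hbA, hb.2⟩
            · exact hA a (hBA ha) b ⟨hb.1, hbA⟩
        · refine ih (A \ B).ncard ?_ (A \ B) rfl (Set.sdiff_subset.trans hAW) ⟨hxA, hxB⟩ ?_
          · rw [← hn]
            apply Set.ncard_lt_ncard _ (Set.toFinite _)
            refine ⟨Set.sdiff_subset, fun h => ?_⟩
            obtain ⟨y, hy⟩ := hBn
            exact (h (hBA hy)).2 hy
          · intro a ha b hb
            by_cases hbA : b ∈ A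
            · have hbB : b ∈ B := by
                by_contra hbB
                exact hb.2 ⟨hbA, hbB⟩
              exact fun e => hB b hbB a ha e.symm
            · exact hA a ha.1 b ⟨hb.1, hbA⟩
      · exact ⟨A, hAW, hxA, hA, hS⟩
  exact key W.ncard W rfl subset_rfl hx (fun a _ b hb => absurd hb.1 hb.2)

/-- A `P4`-free set with at least two elements is disconnected or co-disconnected. -/
theorem seinsche [Finite V] : ∀ (n : ℕ) (G : SimpleGraph V) (W : Set V), W.ncard = n → 2 ≤ n →
    ¬ HasP4 G W → Split G W ∨ Split Gᶜ W := by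
  have step : ∀ (G : SimpleGraph V) (A B : Set V) (v w : V), v ∉ A → v ∉ B → A.Nonempty →
      B.Nonempty → (∀ x ∈ A, x ∉ B) → (∀ a ∈ A, ∀ b ∈ B, ¬ G.Adj a b) → w ∈ A → ¬ G.Adj v w →
      ¬ HasP4 G (insert v (A ∪ B)) → Split G (insert v (A ∪ B)) := by
    intro G A B v w hvA hvB hA hB hdis hAB hw hvw hP
    by_cases h2 : ∃ z ∈ B, G.Adj v z
    · obtain ⟨z, hz, hvz⟩ := h2
      by_cases h3 : ∃ x ∈ A, ∃ y ∈ A, ¬ G.Adj v x ∧ G.Adj v y ∧ G.Adj x y
      · exfalso
        obtain ⟨x, hx, y, hy, hvx, hvy, hxy⟩ := h3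
        apply hP
        refine ⟨x, Or.inr (Or.inl hx), y, Or.inr (Or.inl hy), v, Or.inl rfl, z,
          Or.inr (Or.inr hz), hxy, hvy.symm, hvz, fun e => hvx e.symm, hAB x hx z hz,
          hAB y hy z hz⟩
      · push Not at h3
        refine ⟨{x | x ∈ A ∧ ¬ G.Adj v x}, ?_, ⟨w, hw, hvw⟩, ⟨v, Or.inl rfl, fun h => hvA h.1⟩, ?_⟩
        · intro x hx
          exact Or.inr (Or.inl hx.1)
        · rintro a ⟨haA, hva⟩ b ⟨hb1, hb2⟩ hab
          rcases hb1 with rfl | hbA | hbB
          · exact hva hab.symm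
          · have hvb : G.Adj v b := by
              by_contra hvb
              exact hb2 ⟨hbA, hvb⟩
            exact h3 a haA b hbA hva hvb hab
          · exact hAB a haA b hbB hab
    · push Not at h2
      refine ⟨B, fun x hx => Or.inr (Or.inr hx), hB, ⟨v, Or.inl rfl, hvB⟩, ?_⟩
      rintro a ha b ⟨hb1, hb2⟩ hab
      rcases hb1 with rfl | hbA | hbB
      · exact h2 a ha hab.symm
      · exact hAB b hbA a ha hab.symm
      · exact hb2 hbB
  have step2 : ∀ (G : SimpleGraph V) (W' : Set V) (v : V), v ∉ W' → Split G W' →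
      ¬ HasP4 G (insert v W') → Split G (insert v W') ∨ Split Gᶜ (insert v W') := by
    intro G W' v hv hS hP
    obtain ⟨A, hAW, hA, hB, hAB⟩ := hS
    by_cases h1 : ∀ x ∈ W', G.Adj v x
    · right
      refine ⟨{v}, ?_, ⟨v, rfl⟩, ?_, ?_⟩
      · intro x hx
        rw [Set.mem_singleton_iff] at hx
        subst hx
        exact Or.inl rfl
      · obtain ⟨a, ha⟩ := hA
        refine ⟨a, Or.inr (hAW ha), ?_⟩
        intro h
        rw [Set.mem_singleton_iff] at h
        exact hv (h ▸ hAW ha)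
      · intro a ha b hb
        rw [Set.mem_singleton_iff] at ha
        subst ha
        rcases hb.1 with h | h
        · exact absurd h hb.2
        · simp [h1 b h]
    · left
      push Not at h1
      obtain ⟨w, hw, hvw⟩ := h1
      have hW : W' = A ∪ (W' \ A) := by
        rw [Set.union_sdiff_cancel hAW]
      by_cases hwA : w ∈ A
      · rw [hW]
        refine step G A (W' \ A) v w (fun h => hv (hAW h)) (fun h => hv h.1) hA hB
          (fun x hx h => h.2 hx) hAB hwA hvw ?_
        rw [← hW]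
        exact hP
      · have hW2 : W' = (W' \ A) ∪ A := by
          rw [Set.union_comm]; exact hW
        rw [hW2]
        refine step G (W' \ A) A v w (fun h => hv h.1) (fun h => hv (hAW h)) hB hA
          (fun x hx => hx.2) (fun a ha b hb e => hAB b hb a ha e.symm) ⟨hw, hwA⟩ hvw ?_
        rw [← hW2]
        exact hP
  intro n
  induction n with
  | zero => intro G W _ h2; omega
  | succ n ih =>
    intro G W hn h2 hP
    have hne : W.Nonempty := by
      rw [← Set.ncard_pos (Set.toFinite _)]; omega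
    obtain ⟨v, hv⟩ := hne
    have hcard : (W \ {v}).ncard = n := by
      rw [Set.ncard_sdiff_singleton_of_mem hv, hn]; omega
    have hins : insert v (W \ {v}) = W := by
      rw [Set.insert_sdiff_singleton, Set.insert_eq_of_mem hv]
    have hvn : v ∉ W \ {v} := fun h => h.2 rfl
    by_cases hn2 : 2 ≤ n
    · have hP' : ¬ HasP4 G (W \ {v}) := fun h => hP (h.mono Set.sdiff_subset)
      rcases ih G (W \ {v}) hcard hn2 hP' with h | h
      · have := step2 G (W \ {v}) v hvn h (by rwa [hins])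
        rwa [hins] at this
      · have := step2 Gᶜ (W \ {v}) v hvn h (by rwa [hins, hasP4_compl])
        rw [hins, compl_compl] at this
        exact this.symm
    · have hn1 : n = 1 := by omega
      subst hn1
      obtain ⟨w, hw⟩ := Set.ncard_eq_one.mp hcard
      have hwW : w ∈ W \ {v} := by rw [hw]; rfl
      have hWvw : ∀ x ∈ W \ {v}, x = w := by
        intro x hx
        rw [hw] at hx
        exact hx
      by_cases hvw : G.Adj v w
      · right
        refine ⟨{v}, by simpa using hv, ⟨v, rfl⟩, ⟨w, hwW⟩, ?_⟩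
        intro a ha b hb
        rw [Set.mem_singleton_iff] at ha
        subst ha
        rw [hWvw b hb]
        simp [hvw]
      · left
        refine ⟨{v}, by simpa using hv, ⟨v, rfl⟩, ⟨w, hwW⟩, ?_⟩
        intro a ha b hb
        rw [Set.mem_singleton_iff] at ha
        subst ha
        rw [hWvw b hb]
        exact hvw

end SGN
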