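import Pool.Agent.SGN.Defs

/-!
Lemma C: dominating vertices in P4-free sets whose usable pairs have witnesses
-/

set_option autoImplicit false

namespace SGN

variable {V : Type*}

/-- Vertices of `C` see all of `W \ C` if `C` is closed in the complement. -/
theorem adj_of_closed {G : SimpleGraph V} {W C : Set V}
    (hC : ∀ a ∈ C, ∀ b ∈ W \ C, ¬ Gᶜ.Adj a b) {a b : V} (ha : a ∈ C) (hb : b ∈ W)
    (hbC : b ∉ C) : G.Adj a b := by
  by_contra h
  refine hC a ha b ⟨hb, hbC⟩ ?_
  rw [SimpleGraph.compl_adj]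
  exact ⟨fun e => hbC (e ▸ ha), h⟩

/-- Different components are disjoint. -/
theorem cmp_disj {G : SimpleGraph V} {W C D : Set V} {x y : V} (hC : Cmp G W x C)
    (hD : Cmp G W y D) (hy : y ∉ C) : ∀ z ∈ D, z ∉ C := by
  intro z hz hzC
  refine hD.2.2.2 ⟨D ∩ C, Set.inter_subset_left, ⟨z, hz, hzC⟩, ⟨y, hD.2.1, fun h => hy h.2⟩, ?_⟩
  rintro a ⟨_, haC⟩ b ⟨hbD, hb⟩
  exact hC.2.2.1 a haC b ⟨hD.1 hbD, fun h => hb ⟨hbD, h⟩⟩

/-- Usable pairs of a disconnected co-component have their witnesses in the co-component. -/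
theorem PW.cocmp {G : SimpleGraph V} {s : V → Bool} {W C : Set V} (h : PW G s W) (hCW : C ⊆ W)
    (hC : ∀ a ∈ C, ∀ b ∈ W \ C, ¬ Gᶜ.Adj a b) (hS : Split G C) : PW G s C := by
  constructor
  · intro a ha b hb hab hsa hsb
    obtain ⟨m, hm, hsm, hma, hmb, hB⟩ := h.1 a (hCW ha) b (hCW hb) hab hsa hsb
    by_cases hmC : m ∈ C
    · exact ⟨m, hmC, hsm, hma, hmb, hB.mono hCW⟩
    · exfalso
      have key : ∀ v ∈ C, ¬ G.Adj v a → ¬ G.Adj v b → v ≠ a → v ≠ b → False := by
        intro v hv h1 h2 h3 h4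
        have h5 : v ≠ m := fun e => hmC (e ▸ hv)
        have h6 := hB v (hCW hv) h3 h4 h5 ⟨fun e => absurd e h1, fun e => absurd e h2⟩
        exact h1 (h6.1 (adj_of_closed hC hv hm hmC))
      obtain ⟨A, hAC, ⟨p, hp⟩, ⟨q, hq⟩, hA⟩ := hS
      by_cases haA : a ∈ A
      · have hbA : b ∈ A := by
          by_contra hbA
          exact hA a haA b ⟨hb, hbA⟩ hab
        exact key q hq.1 (fun e => hA a haA q hq e.symm) (fun e => hA b hbA q hq e.symm)
          (fun e => hq.2 (e ▸ haA)) (fun e => hq.2 (e ▸ hbA))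
      · have hbA : b ∉ A := by
          intro hbA
          exact hA b hbA a ⟨ha, haA⟩ hab.symm
        exact key p (hAC hp) (hA p hp a ⟨ha, haA⟩) (hA p hp b ⟨hb, hbA⟩)
          (fun e => haA (e ▸ hp)) (fun e => hbA (e ▸ hp))
  · intro a ha b hb hab hsa hsb
    obtain ⟨m, hm, hsm, hma, hmb, hB⟩ := h.2 a (hCW ha) b (hCW hb) hab hsa hsb
    have hmC : m ∈ C := by
      by_contra hmC
      exact hC a ha m ⟨hm, hmC⟩ hma.symm
    exact ⟨m, hmC, hsm, hma, hmb, hB.mono hCW⟩

/-- LEMMA C. -/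
theorem lemC [Finite V] (G : SimpleGraph V) (s : V → Bool) (W : Set V) (hP : ¬ HasP4 G W)
    (hW : PW G s W) (hS : Split Gᶜ W) :
    ∃ m ∈ W, s m = false ∧ ∀ v ∈ W, v ≠ m → G.Adj m v := by
  have main : ∀ (n : ℕ) (G : SimpleGraph V) (s : V → Bool) (W : Set V), W.ncard = n →
      ¬ HasP4 G W → PW G s W → Split Gᶜ W →
      ∃ m ∈ W, s m = false ∧ ∀ v ∈ W, v ≠ m → G.Adj m v := by
    intro n
    induction n using Nat.strong_induction_on with
    | _ n ih =>
      intro G s W hn hP hW hS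
      have hco : ∀ x C, Cmp Gᶜ W x C →
          ∃ e ∈ C, (∀ v ∈ C, v ≠ e → ¬ G.Adj e v) ∧ (s e = true ∨ C = {e}) := by
        intro x C hC
        by_cases h2 : 2 ≤ C.ncard
        · have hPC : ¬ HasP4 G C := fun h => hP (h.mono hC.1)
          have hSC : Split G C := by
            rcases seinsche C.ncard G C rfl h2 hPC with h | h
            · exact h
            · exact absurd h hC.2.2.2
          have hPW := hW.cocmp hC.1 hC.2.2.1 hSC
          have hlt : C.ncard < n := by
            rw [← hn]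
            apply Set.ncard_lt_ncard _ (Set.toFinite _)
            refine ⟨hC.1, fun h => ?_⟩
            have hCW : C = W := Set.Subset.antisymm hC.1 h
            exact hC.2.2.2 (hCW ▸ hS)
          obtain ⟨e, he, hse, hall⟩ := ih C.ncard hlt Gᶜ (ns s) C rfl
            (fun h => hPC (hasP4_compl.1 h)) hPW.compl (by rwa [compl_compl])
          refine ⟨e, he, fun v hv hve hadj => ?_, Or.inl (by simpa using hse)⟩
          have := hall v hv hve
          rw [SimpleGraph.compl_adj] at this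
          exact this.2 hadj
        · have h1 : C.ncard = 1 := by
            have : 0 < C.ncard := (Set.ncard_pos (Set.toFinite _)).2 ⟨x, hC.2.1⟩
            omega
          obtain ⟨e, he⟩ := Set.ncard_eq_one.1 h1
          refine ⟨e, by rw [he]; rfl, fun v hv hve => ?_, Or.inr he⟩
          rw [he] at hv
          exact absurd hv hve
      have hdone : ∀ x C e, Cmp Gᶜ W x C → C = {e} → s e = false →
          ∃ m ∈ W, s m = false ∧ ∀ v ∈ W, v ≠ m → G.Adj m v := by
        intro x C e hC hCe hse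
        have heC : e ∈ C := by rw [hCe]; rfl
        refine ⟨e, hC.1 heC, hse, fun v hv hve => ?_⟩
        exact adj_of_closed hC.2.2.1 heC hv (by rw [hCe]; exact hve)
      obtain ⟨x, hx⟩ : W.Nonempty := by
        obtain ⟨A, hAW, ⟨p, hp⟩, _⟩ := hS
        exact ⟨p, hAW hp⟩
      obtain ⟨C1, hC1⟩ := exists_cmp Gᶜ W x hx
      obtain ⟨y, hy, hyC⟩ : ∃ y ∈ W, y ∉ C1 := by
        by_contra hcon
        push Not at hcon
        have hCW : C1 = W := Set.Subset.antisymm hC1.1 hcon
        exact hC1.2.2.2 (hCW ▸ hS)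
      obtain ⟨C2, hC2⟩ := exists_cmp Gᶜ W y hy
      have hdis := cmp_disj hC1 hC2 hyC
      obtain ⟨e1, he1, hiso1, hs1⟩ := hco x C1 hC1
      obtain ⟨e2, he2, hiso2, hs2⟩ := hco y C2 hC2
      by_cases hse1 : s e1 = true
      · by_cases hse2 : s e2 = true
        · have h12 : G.Adj e1 e2 :=
            adj_of_closed hC1.2.2.1 he1 (hC2.1 he2) (hdis e2 he2)
          obtain ⟨m, hm, hsm, hm1, hm2, hB⟩ :=
            hW.1 e1 (hC1.1 he1) e2 (hC2.1 he2) h12 hse1 hse2
          have hmC1 : m ∉ C1 := fun h => hiso1 m h hm1.ne hm1.symm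
          have hmC2 : m ∉ C2 := fun h => hiso2 m h hm2.ne hm2.symm
          obtain ⟨C3, hC3⟩ := exists_cmp Gᶜ W m hm
          have hd1 := cmp_disj hC1 hC3 hmC1
          have hd2 := cmp_disj hC2 hC3 hmC2
          refine ⟨m, hm, hsm, fun v hv hvm => ?_⟩
          by_cases hvC : v ∈ C3
          · have hv1 : G.Adj e1 v := adj_of_closed hC1.2.2.1 he1 hv (hd1 v hvC)
            have hv2 : G.Adj e2 v := adj_of_closed hC2.2.2.1 he2 hv (hd2 v hvC)
            have := hB v hv hv1.ne' hv2.ne' hvm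
              ⟨fun _ => hv2.symm, fun _ => hv1.symm⟩
            exact (this.2 hv1.symm).symm
          · exact adj_of_closed hC3.2.2.1 hC3.2.1 hv hvC
        · rcases hs2 with h | h
          · exact absurd h hse2
          · exact hdone y C2 e2 hC2 h (by simpa using hse2)
      · rcases hs1 with h | h
        · exact absurd h hse1
        · exact hdone x C1 e1 hC1 h (by simpa using hse1)
  exact main W.ncard G s W rfl hP hW hS

end SGN
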